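import Pool.Agent.Helper41_QUD.QSD

/-!
Squad QUD, row CLV: the class.
-/

set_option autoImplicit false

namespace Pool.Agent.QUD.H41X

open MeasureTheory Complex Filter Topology Pool.Agent.H16Iso Pool.Agent.H62T
open Pool.Agent.AEU Pool.Agent.XQ Pool.Agent.QUD
open Pool.Agent.H1Gen (det CCW poly)
open Pool.Agent.H62T.H85 (nrm off)
open Pool.Agent.H16F.H69 (bt)

theorem perp_real {z D : ℂ} (hz : z ≠ 0) (h : ip z D = 0) :
    ∃ t : ℝ, D = (t : ℂ) * (I * z) := by
  refine ⟨dt z D / normSq z, ?_⟩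
  have h1 : (normSq z : ℝ) ≠ 0 := by
    rw [Ne, normSq_eq_zero]; exact hz
  have h3 : ip z D = z.re * D.re + z.im * D.im := rfl
  have h4 : dt z D = z.re * D.im - z.im * D.re := rfl
  rw [h3] at h
  have h5 : normSq z = z.re * z.re + z.im * z.im := normSq_apply z
  have h6 : z.re * z.re + z.im * z.im ≠ 0 := by rw [← h5]; exact h1
  have k1 : D.re * (z.re * z.re + z.im * z.im) = (z.re * D.im - z.im * D.re) * (-z.im) := by
    linear_combination z.re * h
  have k2 : D.im * (z.re * z.re + z.im * z.im) = (z.re * D.im - z.im * D.re) * z.re := by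
    linear_combination z.im * h
  rw [h4, h5]
  apply Complex.ext
  · have e : (((((z.re * D.im - z.im * D.re) / (z.re * z.re + z.im * z.im) : ℝ) : ℂ)) *
        (I * z)).re = (z.re * D.im - z.im * D.re) / (z.re * z.re + z.im * z.im) * (-z.im) := by
      simp only [mul_re, ofReal_re, ofReal_im, I_re, I_im, mul_im]
      ring
    rw [e, div_mul_eq_mul_div, eq_div_iff h6, k1]
  · have e : (((((z.re * D.im - z.im * D.re) / (z.re * z.re + z.im * z.im) : ℝ) : ℂ)) *
        (I * z)).im = (z.re * D.im - z.im * D.re) / (z.re * z.re + z.im * z.im) * z.re := by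
      simp only [mul_re, ofReal_re, ofReal_im, I_re, I_im, mul_im]
      ring
    rw [e, div_mul_eq_mul_div, eq_div_iff h6, k2]

theorem clv (hQsd : QsdStmt) : ClvStmt := by
  intro v hv hcl
  have hn : 3 ≤ 4 := by norm_num
  have hq := hQsd v hv
  refine ⟨⟨sd v 0, sd v 1, sd v 2, sd v 3, hq.1.2.2, hq.1.2.1⟩, ?_, ?_⟩
  · intro a ha c hc hac
    have g : ∀ s ∈ sds v, ∃ i : Fin 4, s = sd v i := by
      intro s hs
      simp only [sds, sides, Finset.mem_image, Finset.mem_univ, true_and] at hs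
      obtain ⟨i, hi⟩ := hs
      exact ⟨i, hi.symm⟩
    obtain ⟨i, rfl⟩ := g a ha
    obtain ⟨j, rfl⟩ := g c hc
    have hij : i ≠ j := fun h => hac (by rw [h])
    have e : ∀ i j : Fin 4, i ≠ j → j = i + 1 ∨ j = i + 2 ∨ i = j + 1 := by decide
    rcases e i j hij with h | h | h
    · rw [h]
      exact (dt_pos hn (v := v) hv i).ne'
    · rw [h]
      intro h0
      have h0' : dt (nrm v i) (nrm v (i + 2)) = 0 := h0
      have h1 := H16F.H69.Ev_eq hn (v := v) hv i
      have h2 := H16F.H69.Ev_eq hn (v := v) hv (i + 2)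
      have e2 : ∀ i : Fin 4, i + 2 + 1 = i + 3 := by decide
      have h3 := hcl.par i
      apply h3
      have h4 : H62T.H85.Ev v i = v (i + 1) - v i := rfl
      have h5 : H62T.H85.Ev v (i + 2) = v (i + 3) - v (i + 2) := by
        unfold H62T.H85.Ev
        rw [e2]
      rw [← h4, ← h5, h1, h2]
      generalize ‖H62T.H85.Ev v i‖ = x
      generalize ‖H62T.H85.Ev v (i + 2)‖ = y
      have h6 : det ((x : ℂ) * (nrm v i * I)) ((y : ℂ) * (nrm v (i + 2) * I))
          = x * y * dt (nrm v i) (nrm v (i + 2)) := by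
        simp only [det, dt, mul_re, mul_im, ofReal_re, ofReal_im, I_re, I_im]
        ring
      rw [h6, h0', mul_zero]
    · rw [h]
      intro h0
      have h1 := dt_pos hn (v := v) hv j
      have h2 : dt (nrm v (j + 1)) (nrm v j) = 0 := h0
      rw [dt_anti] at h2
      linarith
  · intro a b c d hs hc
    obtain ⟨i, rfl, rfl, rfl, rfl, h1, h2, h3, h4⟩ := hq.2 a b c d hs hc
    rw [h1, h2, h4]
    refine ⟨?_, ?_⟩
    · have h5 := hcl.len i
      rw [norm_sub_rev (v i), norm_sub_rev (v (i + 1)) (v (i + 2))]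
      exact h5
    · intro h0
      have e2 : ∀ i : Fin 4, i + 2 + 1 = i + 3 := by decide
      have e3 : ∀ i : Fin 4, i + 3 + 1 = i := by decide
      have e4 : ∀ i : Fin 4, i + 3 + 2 = i + 1 := by decide
      have e5 : ∀ i : Fin 4, i + 3 + 3 = i + 2 := by decide
      have k1 : (sd v (i + 2)).2 = ip (nrm v (i + 2)) (v (i + 3)) := by
        have := H62T.H85.off_succ v (i + 2)
        rw [e2] at this
        exact this.symm
      have k2 : (sd v (i + 3)).2 = ip (nrm v (i + 3)) (v (i + 3)) := rfl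
      have k3 : (sd v (i + 2)).1 = nrm v (i + 2) := rfl
      have k4 : (sd v (i + 3)).1 = nrm v (i + 3) := rfl
      rw [k1, k2, k3, k4] at h0
      have m1 := H16F.H69.Ev_eq hn (v := v) hv (i + 2)
      have m2 := H16F.H69.Ev_eq hn (v := v) hv (i + 3)
      have m3 : H62T.H85.Ev v (i + 2) = v (i + 3) - v (i + 2) := by
        unfold H62T.H85.Ev
        rw [e2]
      have m4 : H62T.H85.Ev v (i + 3) = v i - v (i + 3) := by
        unfold H62T.H85.Ev
        rw [e3]
      have m5 := norm_ne_zero_iff.2 (H62T.H85.Ev_ne hn (v := v) hv (i + 2))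
      have m6 := norm_ne_zero_iff.2 (H62T.H85.Ev_ne hn (v := v) hv (i + 3))
      have hdt := dt_pos hn (v := v) hv (i + 2)
      rw [e2] at hdt
      set c1 := nrm v (i + 2) with hc1
      set d1 := nrm v (i + 3) with hd1
      have hz : d1 - c1 ≠ 0 := by
        intro h
        have : d1 = c1 := sub_eq_zero.1 h
        rw [this] at hdt
        have h7 : dt c1 c1 = 0 := by simp only [dt]; ring
        linarith
      have hp : ip (d1 - c1) (v (i + 1) - v (i + 3)) = 0 := by
        have h8 : ip (d1 - c1) (v (i + 1) - v (i + 3))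
            = (ip c1 (v (i + 3)) - ip c1 (v (i + 1))) - (ip d1 (v (i + 3)) - ip d1 (v (i + 1))) := by
          simp only [ip, sub_re, sub_im]; ring
        rw [h8, h0, sub_self]
      obtain ⟨t, ht⟩ := perp_real hz hp
      apply hcl.bis (i + 3)
      refine ⟨t, ?_⟩
      rw [e3, e4, e5, ht]
      have n1 : (v i - v (i + 3)) / (‖v i - v (i + 3)‖ : ℂ) = d1 * I := by
        rw [← m4]
        have m6' : (‖H62T.H85.Ev v (i + 3)‖ : ℂ) ≠ 0 := by exact_mod_cast m6
        rw [div_eq_iff m6']
        nth_rewrite 1 [m2]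
        ring
      have n2 : (v (i + 2) - v (i + 3)) / (‖v (i + 2) - v (i + 3)‖ : ℂ) = -(c1 * I) := by
        have m5' : (‖H62T.H85.Ev v (i + 2)‖ : ℂ) ≠ 0 := by exact_mod_cast m5
        have q1 : v (i + 2) - v (i + 3) = -H62T.H85.Ev v (i + 2) := by rw [m3]; ring
        rw [q1, norm_neg, div_eq_iff m5']
        nth_rewrite 1 [m1]
        ring
      rw [n1, n2]
      ring

end Pool.Agent.QUD.H41X
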