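import Pool.Agent.QUD.StmtsV

/-!
# Row CVX of squad QUD: convexity of the constant as a function of the secant
-/

set_option autoImplicit false

namespace Pool.Agent.QUD.H41

open MeasureTheory Filter Topology Real Set Pool.Agent.QUD

/-- the denominator is positive -/
theorem cvx_pos {a η : ℝ} (ha : π / 2 < a) (ha' : a < π) (h0 : 0 ≤ η) (h1 : η < a - π / 2) :
    0 < cos (2 * (π / a) * η) - cos (π / a * π) := by
  have hπ := Real.pi_pos
  have hapos : 0 < a := by linarith
  have hβ1 : 1 < π / a := by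
    rw [lt_div_iff₀ hapos]
    linarith
  have hβ2 : π / a < 2 := by
    rw [div_lt_iff₀ hapos]
    linarith
  have h2 : 2 * (π / a) * η < 2 * π - π / a * π := by
    have h3 : 2 * (π / a) * η < 2 * (π / a) * (a - π / 2) := by
      have : 0 < 2 * (π / a) := by linarith
      exact mul_lt_mul_of_pos_left h1 this
    have h4 : 2 * (π / a) * (a - π / 2) = 2 * π - π / a * π := by
      field_simp
    linarith
  have h5 : cos (π / a * π) = cos (2 * π - π / a * π) := by
    rw [Real.cos_two_pi_sub]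
  have h6 : 2 * π - π / a * π ≤ π := by nlinarith
  have h7 : 0 ≤ 2 * (π / a) * η := by
    have : 0 < 2 * (π / a) := by linarith
    exact mul_nonneg this.le h0
  have := Real.strictAntiOn_cos (show 2 * (π / a) * η ∈ Icc 0 π from ⟨h7, by linarith⟩)
    (show 2 * π - π / a * π ∈ Icc 0 π from ⟨by linarith, h6⟩) h2
  rw [h5]
  linarith

theorem cvx_cos {a η : ℝ} (ha' : a < π) (h0 : 0 ≤ η) (h1 : η < a - π / 2) : 0 < cos η := by
  have hπ := Real.pi_pos
  exact Real.cos_pos_of_mem_Ioo ⟨by linarith, by linarith⟩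

theorem cvx_deriv {a η : ℝ} (ha : π / 2 < a) (ha' : a < π) (h0 : 0 ≤ η) (h1 : η < a - π / 2) :
    HasDerivAt (fun t => Cf (π / a) t) ((π / a) ^ 2 * (-sin (π / a * π)) * sin (2 * (π / a) * η) /
      (cos (2 * (π / a) * η) - cos (π / a * π)) ^ 2) η := by
  have hE := cvx_pos ha ha' h0 h1
  have h2 : HasDerivAt (fun t : ℝ => 2 * (π / a) * t) (2 * (π / a)) η := by
    have := (hasDerivAt_id η).const_mul (2 * (π / a))
    rw [mul_one] at this
    exact this
  have h3 := ((Real.hasDerivAt_cos (2 * (π / a) * η)).comp η h2).sub_const (cos (π / a * π))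
  have h4 := (hasDerivAt_const η (π / a / 2 * (-sin (π / a * π)))).div h3 hE.ne'
  unfold Cf
  refine h4.congr_deriv ?_
  simp only [Function.comp]
  congr 1
  ring

theorem cvx_sec {a η : ℝ} (ha' : a < π) (h0 : 0 ≤ η) (h1 : η < a - π / 2) :
    HasDerivAt (fun t => 1 / cos t) (sin η / cos η ^ 2) η := by
  have hc := cvx_cos ha' h0 h1
  have h4 := (hasDerivAt_const η (1 : ℝ)).div (Real.hasDerivAt_cos η) hc.ne'
  refine h4.congr_deriv ?_
  congr 1
  ring

theorem cvx_mvt {a : ℝ} (ha : π / 2 < a) (ha' : a < π) {η η' : ℝ} (h0 : 0 ≤ η) (h : η < η')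
    (h1 : η' < a - π / 2) :
    ∃ ξ, η < ξ ∧ ξ < η' ∧ Cf (π / a) η' - Cf (π / a) η =
      (π / a) ^ 2 * (-sin (π / a * π)) * Gc (π / a) ξ * (1 / cos η' - 1 / cos η) := by
  obtain ⟨ξ, hξ, he⟩ := exists_ratio_hasDerivAt_eq_ratio_slope (fun t => Cf (π / a) t)
    (fun η => (π / a) ^ 2 * (-sin (π / a * π)) * sin (2 * (π / a) * η) /
      (cos (2 * (π / a) * η) - cos (π / a * π)) ^ 2) h
    (fun x hx => (cvx_deriv ha ha' (h0.trans hx.1)
      (lt_of_le_of_lt hx.2 h1)).continuousAt.continuousWithinAt)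
    (fun x hx => cvx_deriv ha ha' (h0.trans hx.1.le) (hx.2.trans h1))
    (fun t => 1 / cos t) (fun η => sin η / cos η ^ 2)
    (fun x hx => (cvx_sec ha' (h0.trans hx.1)
      (lt_of_le_of_lt hx.2 h1)).continuousAt.continuousWithinAt)
    (fun x hx => cvx_sec ha' (h0.trans hx.1.le) (hx.2.trans h1))
  refine ⟨ξ, hξ.1, hξ.2, ?_⟩
  have hξ0 : 0 < ξ := lt_of_le_of_lt h0 hξ.1
  have hξ1 : ξ < a - π / 2 := hξ.2.trans h1
  have hc := cvx_cos ha' hξ0.le hξ1
  have hE := cvx_pos ha ha' hξ0.le hξ1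
  have hs : 0 < sin ξ := Real.sin_pos_of_pos_of_lt_pi hξ0 (by linarith [Real.pi_pos])
  have hsc : sin ξ / cos ξ ^ 2 ≠ 0 := (div_pos hs (pow_pos hc 2)).ne'
  have h3 : (π / a) ^ 2 * (-sin (π / a * π)) * sin (2 * (π / a) * ξ) /
      (cos (2 * (π / a) * ξ) - cos (π / a * π)) ^ 2 =
      (π / a) ^ 2 * (-sin (π / a * π)) * Gc (π / a) ξ * (sin ξ / cos ξ ^ 2) := by
    unfold Gc
    have hE' := hE.ne'
    have hc' := hc.ne'
    have hs' := hs.ne'
    generalize cos (2 * (π / a) * ξ) - cos (π / a * π) = E at hE' ⊢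
    generalize (π / a) ^ 2 * (-sin (π / a * π)) = C
    field_simp
  rw [h3] at he
  apply mul_right_cancel₀ hsc
  rw [← he]
  ring

theorem cvx_sec_mono {a : ℝ} (ha' : a < π) {η η' : ℝ} (h0 : 0 ≤ η) (h : η < η')
    (h1 : η' < a - π / 2) : 1 / cos η < 1 / cos η' := by
  have hc' := cvx_cos ha' (h0.trans h.le) h1
  have : cos η' < cos η := Real.strictAntiOn_cos ⟨h0, by linarith [Real.pi_pos]⟩
    ⟨h0.trans h.le, by linarith [Real.pi_pos]⟩ h
  exact one_div_lt_one_div_of_lt hc' this

theorem cvx_const {a : ℝ} (ha : π / 2 < a) (ha' : a < π) :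
    0 < (π / a) ^ 2 * (-sin (π / a * π)) := by
  have hπ := Real.pi_pos
  have hapos : 0 < a := by linarith
  have hβ1 : 1 < π / a := by
    rw [lt_div_iff₀ hapos]
    linarith
  have hβ2 : π / a < 2 := by
    rw [div_lt_iff₀ hapos]
    linarith
  have h1 : 0 < sin (π / a * π - π) :=
    Real.sin_pos_of_pos_of_lt_pi (by nlinarith) (by nlinarith)
  rw [Real.sin_sub_pi] at h1
  exact mul_pos (pow_pos (by linarith) 2) h1

theorem cvx_ord (hG : CvgStmt) {a : ℝ} (ha : π / 2 < a) (ha' : a < π) {x y x' y' : ℝ}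
    (hx : 0 ≤ x) (hy : y < a - π / 2)
    (hxy' : x' ≤ y') (h : x < x')
    (hs : 1 / cos x + 1 / cos y = 1 / cos x' + 1 / cos y')
    (hy' : y' < a - π / 2) (hyy : 0 ≤ y)
    (hf : Cf (π / a) x + Cf (π / a) y = Cf (π / a) x' + Cf (π / a) y') : False := by
  have hapos : 0 < a := by linarith [Real.pi_pos]
  have hβ1 : 1 < π / a := by
    rw [lt_div_iff₀ hapos]
    linarith
  have hβ2 : π / a < 2 := by
    rw [div_lt_iff₀ hapos]
    linarith
  have hM : π / (π / a) - π / 2 = a - π / 2 := by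
    have := Real.pi_pos
    field_simp
  have h1 := cvx_sec_mono ha' hx h (lt_of_le_of_lt hxy' hy')
  have h2 : y' < y := by
    by_contra hc
    rcases (not_lt.mp hc).lt_or_eq with h3 | h3
    · have := cvx_sec_mono ha' hyy h3 hy'
      linarith
    · rw [h3] at hs
      linarith
  obtain ⟨ξ, k1, k2, k3⟩ := cvx_mvt ha ha' hx h (lt_of_le_of_lt hxy' hy')
  obtain ⟨ζ, l1, l2, l3⟩ := cvx_mvt ha ha' (le_trans (hx.trans h.le) hxy') h2 hy
  have h4 := hG (π / a) ξ ζ hβ1 hβ2 (lt_of_le_of_lt hx k1) (by linarith)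
    (by rw [hM]; linarith)
  have h5 := cvx_const ha ha'
  have h6 : Cf (π / a) x' - Cf (π / a) x = Cf (π / a) y - Cf (π / a) y' := by linarith
  have h7 : 1 / cos x' - 1 / cos x = 1 / cos y - 1 / cos y' := by linarith
  rw [k3, l3, ← h7] at h6
  have h8 : 0 < 1 / cos x' - 1 / cos x := by linarith
  have h9 := mul_right_cancel₀ h8.ne' h6
  have h10 := mul_left_cancel₀ h5.ne' h9
  linarith

theorem cvx_fac {C G B : ℝ} (hC : 0 < C) (hB : 0 < B) (h : 0 < C * G * B) : 0 < G := by
  by_contra hn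
  have h1 : 0 ≤ C * (-G) := mul_nonneg hC.le (by linarith)
  have h2 : 0 ≤ C * (-G) * B := mul_nonneg h1 hB.le
  have h3 : C * (-G) * B = -(C * G * B) := by ring
  linarith

theorem cvx_canc {C G A G' B : ℝ} (hC : 0 < C) (h : C * G * A = C * G' * B) :
    G * A = G' * B := by
  apply mul_left_cancel₀ hC.ne'
  rw [← mul_assoc, ← mul_assoc]
  exact h

theorem cvx_two (hG : CvgStmt) (hM : MceStmt) {a : ℝ} (ha : π / 2 < a) (ha' : a < π)
    {x y z : ℝ} (hx : 0 ≤ x) (hxy : x ≤ y) (hy : y < a - π / 2) (hz : 0 ≤ z)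
    (hz' : z < a - π / 2) (hf : Cf (π / a) x + Cf (π / a) y = 2 * Cf (π / a) z) :
    1 / cos x + 1 / cos y ≤ 2 * (1 / cos z) := by
  have hapos : 0 < a := by linarith [Real.pi_pos]
  have hβ1 : 1 < π / a := by
    rw [lt_div_iff₀ hapos]
    linarith
  have hβ2 : π / a < 2 := by
    rw [div_lt_iff₀ hapos]
    linarith
  have hM' : π / (π / a) - π / 2 = a - π / 2 := by
    have := Real.pi_pos
    field_simp
  have hmono : ∀ u v : ℝ, 0 ≤ u → u < v → v < a - π / 2 → Cf (π / a) u < Cf (π / a) v := by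
    intro u v hu huv hv
    have := hM a (π / 2 - v) (π / 2 - u) ha ha' (by linarith) (by linarith) (by linarith)
    unfold Cs at this
    rw [show π / 2 - (π / 2 - u) = u by ring, show π / 2 - (π / 2 - v) = v by ring] at this
    exact this
  have hxy' : Cf (π / a) x ≤ Cf (π / a) y := by
    rcases hxy.lt_or_eq with h | h
    · exact (hmono x y hx h hy).le
    · rw [h]
  have h1 : x ≤ z := by
    by_contra hc
    have := hmono z x hz (not_le.mp hc) (by linarith)
    linarith
  have h2 : z ≤ y := by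
    by_contra hc
    have := hmono y z (hx.trans hxy) (not_le.mp hc) hz'
    linarith
  rcases h1.lt_or_eq with h3 | h3
  · rcases h2.lt_or_eq with h4 | h4
    · obtain ⟨ξ, k1, k2, k3⟩ := cvx_mvt ha ha' hx h3 hz'
      obtain ⟨ζ, l1, l2, l3⟩ := cvx_mvt ha ha' hz h4 hy
      have h5 := hG (π / a) ξ ζ hβ1 hβ2 (lt_of_le_of_lt hx k1) (by linarith)
        (by rw [hM']; linarith)
      have hC := cvx_const ha ha'
      have h6 : Cf (π / a) z - Cf (π / a) x = Cf (π / a) y - Cf (π / a) z := by linarith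
      have hA : 0 < 1 / cos z - 1 / cos x := by
        have := cvx_sec_mono ha' hx h3 hz'
        linarith
      have hB : 0 < 1 / cos y - 1 / cos z := by
        have := cvx_sec_mono ha' hz h4 hy
        linarith
      have hpos : 0 < Cf (π / a) y - Cf (π / a) z := by
        have := hmono z y hz h4 hy
        linarith
      have hG2 : 0 < Gc (π / a) ζ := by
        rw [l3] at hpos
        exact cvx_fac hC hB hpos
      rw [k3, l3] at h6
      have h7 := cvx_canc hC h6
      have h8 : Gc (π / a) ξ * (1 / cos z - 1 / cos x) <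
          Gc (π / a) ζ * (1 / cos z - 1 / cos x) := mul_lt_mul_of_pos_right h5 hA
      rw [h7] at h8
      have h9 := lt_of_mul_lt_mul_left h8 hG2.le
      linarith
    · exfalso
      rw [h4] at h3 hf
      have := hmono x y hx h3 hy
      linarith
  · rcases h2.lt_or_eq with h4 | h4
    · exfalso
      have := hmono z y hz h4 hy
      rw [h3] at hf
      linarith
    · rw [h3, ← h4]
      linarith

theorem cvx (hG : CvgStmt) (hM : MceStmt) : CvxStmt := by
  intro a b c ha ha' hb hb' hc hc'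
  have hsin : ∀ t : ℝ, 1 / sin t = 1 / cos (π / 2 - t) := by
    intro t
    rw [Real.cos_pi_div_two_sub]
  constructor
  · intro b' c' hb1 hb2 hc1 hc2 hs hf
    rw [hsin b, hsin c, hsin b', hsin c'] at hs
    unfold Cs at hf
    -- ordered pairs
    have key : ∀ x y x' y' : ℝ, 0 ≤ x → x ≤ y → y < a - π / 2 → 0 ≤ x' → x' ≤ y' →
        y' < a - π / 2 → 1 / cos x + 1 / cos y = 1 / cos x' + 1 / cos y' →
        Cf (π / a) x + Cf (π / a) y = Cf (π / a) x' + Cf (π / a) y' → x = x' ∧ y = y' := by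
      intro x y x' y' h1 h2 h3 h4 h5 h6 h7 h8
      rcases lt_trichotomy x x' with h | h | h
      · exact (cvx_ord hG ha ha' h1 h3 h5 h h7 h6 (h1.trans h2) h8).elim
      · refine ⟨h, ?_⟩
        rw [h] at h7
        have h9 : 1 / cos y = 1 / cos y' := by linarith
        rcases lt_trichotomy y y' with k | k | k
        · have := cvx_sec_mono ha' (h1.trans h2) k h6
          linarith
        · exact k
        · have := cvx_sec_mono ha' (h4.trans h5) k h3
          linarith
      · exact (cvx_ord hG ha ha' h4 h6 h2 h h7.symm h3 (h4.trans h5) h8.symm).elim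
    rcases le_total (π / 2 - b) (π / 2 - c) with h1 | h1 <;>
      rcases le_total (π / 2 - b') (π / 2 - c') with h2 | h2
    · obtain ⟨e1, e2⟩ := key _ _ _ _ (by linarith) h1 (by linarith) (by linarith) h2 (by linarith)
        hs hf
      exact Or.inl ⟨by linarith, by linarith⟩
    · obtain ⟨e1, e2⟩ := key _ _ _ _ (by linarith) h1 (by linarith) (by linarith) h2 (by linarith)
        (by linarith) (by linarith)
      exact Or.inr ⟨by linarith, by linarith⟩
    · obtain ⟨e1, e2⟩ := key _ _ _ _ (by linarith) h1 (by linarith) (by linarith) h2 (by linarith)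
        (by linarith) (by linarith)
      exact Or.inr ⟨by linarith, by linarith⟩
    · obtain ⟨e1, e2⟩ := key _ _ _ _ (by linarith) h1 (by linarith) (by linarith) h2 (by linarith)
        (by linarith) (by linarith)
      exact Or.inl ⟨by linarith, by linarith⟩
  · intro a' h1 h2 hf
    unfold Cs at hf
    rw [show (2 : ℝ) / sin a' = 2 * (1 / sin a') by ring, hsin b, hsin c, hsin a']
    rcases le_total (π / 2 - b) (π / 2 - c) with h | h
    · exact cvx_two hG hM ha ha' (by linarith) h (by linarith) (by linarith) (by linarith) hf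
    · have := cvx_two hG hM ha ha' (by linarith) h (by linarith) (z := π / 2 - a') (by linarith)
        (by linarith) (by linarith)
      linarith

end Pool.Agent.QUD.H41
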