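import Pool.Agent.Helper41_QUD.CLV
import Pool.Agent.QUD.StmtsY

/-!
Squad QUD, row CVY: the larger class.
-/

set_option autoImplicit false

namespace Pool.Agent.QUD.H41Y

open MeasureTheory Complex Filter Topology Pool.Agent.H16Iso Pool.Agent.H62T
open Pool.Agent.AEU Pool.Agent.XQ Pool.Agent.QUD Pool.Agent.QUD.H41X
open Pool.Agent.H1Gen (det CCW poly)
open Pool.Agent.H62T.H85 (nrm off)
open Pool.Agent.H16F.H69 (bt)

theorem ip_frame (x y : ℝ) (a b : ℂ) :
    ip ((x : ℂ) * (a * I)) ((y : ℂ) * (b * I)) = x * y * ip a b := by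
  simp only [ip, mul_re, mul_im, ofReal_re, ofReal_im, I_re, I_im]
  ring

theorem det_frame (x y : ℝ) (a b : ℂ) :
    det ((x : ℂ) * (a * I)) ((y : ℂ) * (b * I)) = x * y * dt a b := by
  simp only [det, dt, mul_re, mul_im, ofReal_re, ofReal_im, I_re, I_im]
  ring

theorem ip_neg_l (a b : ℂ) : ip (-a) b = -ip a b := by
  simp only [ip, neg_re, neg_im]; ring

theorem ip_neg_r (a b : ℂ) : ip a (-b) = -ip a b := by
  simp only [ip, neg_re, neg_im]; ring

theorem ip_comm' (a b : ℂ) : ip a b = ip b a := by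
  simp only [ip]; ring

theorem cvy (hQsd : QsdStmt) : CvyStmt := by
  intro v hv hcl
  have hn : 3 ≤ 4 := by norm_num
  have hq := hQsd v hv
  refine ⟨⟨sd v 0, sd v 1, sd v 2, sd v 3, hq.1.2.2, hq.1.2.1⟩, ?_⟩
  have e1 : ∀ i : Fin 4, i + 1 + 1 = i + 2 := by decide
  have e2 : ∀ i : Fin 4, i + 2 + 1 = i + 3 := by decide
  have e3 : ∀ i : Fin 4, i + 3 + 1 = i := by decide
  have e4 : ∀ i : Fin 4, i + 3 + 2 = i + 1 := by decide
  have e5 : ∀ i : Fin 4, i + 3 + 3 = i + 2 := by decide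
  have hpos : ∀ i : Fin 4, 0 < ‖H62T.H85.Ev v i‖ := fun i =>
    norm_pos_iff.2 (H62T.H85.Ev_ne hn (v := v) hv i)
  have hEv : ∀ i : Fin 4, H62T.H85.Ev v i = (‖H62T.H85.Ev v i‖ : ℂ) * (nrm v i * I) :=
    fun i => H16F.H69.Ev_eq hn (v := v) hv i
  rcases hcl with ⟨i, hi⟩ | hcl
  · left
    have hmem : ∀ i : Fin 4, sd v i ∈ sds v := fun i => by
      simp only [sds, sides, Finset.mem_image, Finset.mem_univ, true_and]
      exact ⟨i, rfl⟩
    refine ⟨sd v i, hmem i, sd v (i + 2), hmem (i + 2), ?_, ?_⟩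
    · intro h
      have h1 : i = i + 2 := sd_inj hn hv h
      have h2 : ∀ i : Fin 4, i ≠ i + 2 := by decide
      exact h2 i h1
    · have h4 : H62T.H85.Ev v i = v (i + 1) - v i := rfl
      have h5 : H62T.H85.Ev v (i + 2) = v (i + 3) - v (i + 2) := by
        unfold H62T.H85.Ev
        rw [e2]
      rw [← h4, ← h5, hEv i, hEv (i + 2), det_frame] at hi
      have h6 : dt (sd v i).1 (sd v (i + 2)).1 = dt (nrm v i) (nrm v (i + 2)) := rfl
      rw [h6]
      rcases mul_eq_zero.1 hi with h | h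
      · exact absurd h (mul_pos (hpos i) (hpos (i + 2))).ne'
      · exact h
  · right
    intro a b c d hs hc
    obtain ⟨i, rfl, rfl, rfl, rfl, h1, h2, h3, h4⟩ := hq.2 a b c d hs hc
    rw [h1]
    rintro ⟨h0, hda, hbc⟩
    apply hcl (i + 3)
    rw [e3, e4, e5]
    have k1 : (sd v (i + 2)).2 = ip (nrm v (i + 2)) (v (i + 3)) := by
      have := H62T.H85.off_succ v (i + 2)
      rw [e2] at this
      exact this.symm
    have k2 : (sd v (i + 3)).2 = ip (nrm v (i + 3)) (v (i + 3)) := rfl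
    have k3 : ∀ j, (sd v j).1 = nrm v j := fun _ => rfl
    rw [k1, k2, k3, k3] at h0
    rw [k3, k3] at hda hbc
    have m0 : v (i + 1) - v i = H62T.H85.Ev v i := rfl
    have m1 : v (i + 1) - v (i + 2) = -H62T.H85.Ev v (i + 1) := by
      unfold H62T.H85.Ev
      rw [e1]; ring
    have m2 : v (i + 3) - v (i + 2) = H62T.H85.Ev v (i + 2) := by
      unfold H62T.H85.Ev
      rw [e2]
    have m2' : v (i + 2) - v (i + 3) = -H62T.H85.Ev v (i + 2) := by
      rw [← m2]; ring
    have m3 : v i - v (i + 3) = H62T.H85.Ev v (i + 3) := by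
      unfold H62T.H85.Ev
      rw [e3]
    have m3' : v (i + 3) - v i = -H62T.H85.Ev v (i + 3) := by
      rw [← m3]; ring
    have hdt := dt_pos hn (v := v) hv (i + 2)
    rw [e2] at hdt
    refine ⟨?_, ?_, ?_⟩
    · set c1 := nrm v (i + 2) with hc1
      set d1 := nrm v (i + 3) with hd1
      have hz : d1 - c1 ≠ 0 := by
        intro h
        have : d1 = c1 := sub_eq_zero.1 h
        rw [this] at hdt
        have h7 : dt c1 c1 = 0 := by simp only [dt]; ring
        linarith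
      have hp : ip (d1 - c1) (v (i + 1) - v (i + 3)) = 0 := by
        have h8 : ip (d1 - c1) (v (i + 1) - v (i + 3))
            = (ip c1 (v (i + 3)) - ip c1 (v (i + 1))) - (ip d1 (v (i + 3)) - ip d1 (v (i + 1))) := by
          simp only [ip, sub_re, sub_im]; ring
        rw [h8, h0, sub_self]
      obtain ⟨t, ht⟩ := perp_real hz hp
      refine ⟨t, ?_⟩
      rw [ht]
      have n1 : (v i - v (i + 3)) / (‖v i - v (i + 3)‖ : ℂ) = d1 * I := by
        rw [m3]
        have m6' : (‖H62T.H85.Ev v (i + 3)‖ : ℂ) ≠ 0 := by exact_mod_cast (hpos (i + 3)).ne'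
        rw [div_eq_iff m6']
        nth_rewrite 1 [hEv (i + 3)]
        ring
      have n2 : (v (i + 2) - v (i + 3)) / (‖v (i + 2) - v (i + 3)‖ : ℂ) = -(c1 * I) := by
        have m5' : (‖H62T.H85.Ev v (i + 2)‖ : ℂ) ≠ 0 := by exact_mod_cast (hpos (i + 2)).ne'
        rw [m2', norm_neg, div_eq_iff m5']
        nth_rewrite 1 [hEv (i + 2)]
        ring
      rw [n1, n2]
      ring
    · rw [m3', m0, ip_neg_l]
      rw [hEv (i + 3), hEv i, ip_frame]
      have := mul_pos (mul_pos (hpos (i + 3)) (hpos i)) (neg_pos.2 hda)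
      linarith
    · rw [m2, m1, ip_neg_r]
      rw [hEv (i + 2), hEv (i + 1), ip_frame, ip_comm']
      have := mul_pos (mul_pos (hpos (i + 2)) (hpos (i + 1))) (neg_pos.2 hbc)
      linarith

end Pool.Agent.QUD.H41Y
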