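import Pool.Agent.QUD.StmtsX
import Pool.Agent.Helper5_PM.M014

/-!
Squad QUD, row MNK: Minkowski's inequality for polygons with given normals.
-/

set_option autoImplicit false

namespace Pool.Agent.QUD.H41M

open MeasureTheory Complex Filter Topology Pool.Agent.H16Iso Pool.Agent.H62T
open Pool.Agent.H16F (ind Nm len qa Ar TT cm sg ns AlgStatement RunStatement CombStatement)
open Pool.Agent.QUD

theorem ip_ofReal_mul_right (w : ℂ) (s : ℝ) (z : ℂ) : ip w ((s : ℂ) * z) = s * ip w z := by
  simp only [ip, mul_re, mul_im, ofReal_re, ofReal_im]; ring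

theorem continuous_ip' (w : ℂ) : Continuous fun z => ip w z := by
  unfold ip
  fun_prop

/-- a point is controlled by two of its coordinates -/
theorem norm_le_two {u0 u1 : ℂ} {β : ℝ} (hu : ‖u0‖ = 1) (hs : u1 = u0 * Complex.exp (β * I))
    (h0 : 0 < Real.sin β) (x : ℂ) {M : ℝ} (ha : |ip u0 x| ≤ M) (hb : |ip u1 x| ≤ M) :
    ‖x‖ ≤ M + 2 * M / Real.sin β := by
  have hM : 0 ≤ M := (abs_nonneg _).trans ha
  have hn : u0.re ^ 2 + u0.im ^ 2 = 1 := by
    have : ‖u0‖ ^ 2 = 1 := by rw [hu]; norm_num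
    rw [Complex.sq_norm, normSq_apply] at this
    linarith
  have e1 : ip u1 x = ip u0 x * Real.cos β + dt u0 x * Real.sin β := by
    rw [hs]
    have h1 : Complex.exp (β * I) = (Real.cos β : ℂ) + (Real.sin β : ℂ) * I := by
      rw [Complex.exp_mul_I, ofReal_cos, ofReal_sin]
    rw [h1]
    simp only [ip, dt, mul_re, mul_im, add_re, add_im, ofReal_re, ofReal_im, I_re, I_im]
    ring
  have e2 : x = ((ip u0 x : ℝ) : ℂ) * u0 + ((dt u0 x : ℝ) : ℂ) * (I * u0) := by
    apply Complex.ext
    · simp only [ip, dt, mul_re, mul_im, add_re, ofReal_re, ofReal_im, I_re, I_im]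
      linear_combination (-x.re) * hn
    · simp only [ip, dt, mul_re, mul_im, add_im, ofReal_re, ofReal_im, I_re, I_im]
      linear_combination (-x.im) * hn
  have e3 : |dt u0 x| ≤ 2 * M / Real.sin β := by
    rw [le_div_iff₀ h0]
    have h2 : |dt u0 x| * Real.sin β = |dt u0 x * Real.sin β| := by
      rw [abs_mul, abs_of_pos h0]
    rw [h2]
    have h3 : dt u0 x * Real.sin β = ip u1 x - ip u0 x * Real.cos β := by rw [e1]; ring
    rw [h3]
    have h4 : |ip u1 x - ip u0 x * Real.cos β| ≤ |ip u1 x| + |ip u0 x * Real.cos β| := by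
      exact abs_sub _ _
    have h5 : |ip u0 x * Real.cos β| ≤ M := by
      rw [abs_mul]
      have h6 := Real.abs_cos_le_one β
      calc |ip u0 x| * |Real.cos β| ≤ M * 1 :=
            mul_le_mul ha h6 (abs_nonneg _) hM
        _ = M := mul_one M
    linarith
  have e4 : ‖x‖ ≤ |ip u0 x| + |dt u0 x| := by
    have h7 : ‖x‖ ≤ ‖((ip u0 x : ℝ) : ℂ) * u0‖ + ‖((dt u0 x : ℝ) : ℂ) * (I * u0)‖ := by
      conv_lhs => rw [e2]
      exact norm_add_le _ _
    rw [norm_mul, norm_mul, norm_mul, Complex.norm_I, hu, Complex.norm_real, Complex.norm_real,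
      Real.norm_eq_abs, Real.norm_eq_abs] at h7
    simpa using h7
  linarith

theorem cm_nonneg (hComb : CombStatement) {n : ℕ} [NeZero n] (hn : 3 ≤ n) (T : Set (Fin n))
    (hT : T.Nonempty) : 0 ≤ cm T := by
  obtain ⟨i, hi⟩ := hT
  have hji : i + 1 ≠ i := (H62T.H85.succ_ne hn i).1
  have h1 := (hComb n T hn).2.2.1 (i + 1)
  have h2 : ¬ T ⊆ {i + 1} := fun h => hji (by
    have := h hi
    simpa using this.symm)
  have h3 : ind (T ⊆ {i + 1}) = 0 := by
    unfold ind
    rw [if_neg h2]
  have h4 : 0 ≤ sg (i + 1) T := by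
    unfold sg ind
    split_ifs <;> norm_num
  rw [h3] at h1
  linarith

theorem mnk (hAlg : AlgStatement) (hRun : RunStatement) (hComb : CombStatement) : MnkStmt := by
  intro n _ u β N H g hg hG
  have hn : 3 ≤ n := Pool.Agent.H16F.H69.three_le N
  obtain ⟨A1, -, A3, A4, -, -⟩ := hAlg n u β N
  -- the coefficients
  set c : Fin n → ℝ := fun i => Real.tan (β (i - 1) / 2) + Real.tan (β i / 2) with hc
  have hcpos : ∀ i, 0 < c i := by
    intro i
    have k : ∀ j, 0 < Real.tan (β j / 2) := fun j =>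
      Real.tan_pos_of_pos_of_lt_pi_div_two (by linarith [N.pos j]) (by linarith [N.lt j])
    have := k i
    have := k (i - 1)
    simp only [hc]
    linarith
  have hsum : ∀ x : ℂ, ∑ i, ip (u i) x * c i = 0 := by
    intro x
    have h1 := A3 (fun j => 0 - ip (u j) x)
    have h2 : ∑ i, len β (fun j => 0 - ip (u j) x) i = 0 := by
      have h3 : ∀ i, len β (fun j => 0 - ip (u j) x) i = 0 := by
        intro i
        rw [A4 (fun _ => 0) x i]
        unfold len
        simp
      rw [Finset.sum_eq_zero fun i _ => h3 i]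
    rw [h2] at h1
    have h4 : ∑ i, (0 - ip (u i) x) * (Real.tan (β (i - 1) / 2) + Real.tan (β i / 2))
        = -∑ i, ip (u i) x * c i := by
      rw [← Finset.sum_neg_distrib]
      refine Finset.sum_congr rfl fun i _ => ?_
      simp only [hc]
      ring
    rw [h4] at h1
    linarith
  set D : ℝ → Set ℂ := fun ρ => {x | ∀ i, ip (u i) x ≤ H i - ρ * g i} with hD
  -- lower and upper bound for the parameter
  obtain ⟨ρ0, hρ0⟩ : ∃ ρ0 : ℝ, (0 : ℂ) ∈ D ρ0 := by
    refine ⟨-∑ j, |H j| / g j, fun i => ?_⟩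
    have h1 : |H i| / g i ≤ ∑ j, |H j| / g j :=
      Finset.single_le_sum (f := fun j => |H j| / g j)
        (fun j _ => div_nonneg (abs_nonneg _) (hg j).le) (Finset.mem_univ i)
    have h2 : |H i| ≤ (∑ j, |H j| / g j) * g i := by
      rwa [div_le_iff₀ (hg i)] at h1
    have h3 : ip (u i) 0 = 0 := by simp [ip]
    rw [h3]
    have h4 := neg_abs_le (H i)
    linarith
  have hcg : 0 < ∑ i, g i * c i := by
    have : (Finset.univ : Finset (Fin n)).Nonempty := ⟨0, Finset.mem_univ _⟩
    exact Finset.sum_pos (fun i _ => mul_pos (hg i) (hcpos i)) this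
  set ρ1 : ℝ := (∑ i, H i * c i) / ∑ i, g i * c i with hρ1
  have hub : ∀ ρ x, x ∈ D ρ → ρ ≤ ρ1 := by
    intro ρ x hx
    rw [hρ1, le_div_iff₀ hcg]
    have h1 : ∑ i, ip (u i) x * c i ≤ ∑ i, (H i - ρ * g i) * c i :=
      Finset.sum_le_sum fun i _ => mul_le_mul_of_nonneg_right (hx i) (hcpos i).le
    rw [hsum] at h1
    have h2 : ∑ i, (H i - ρ * g i) * c i = ∑ i, H i * c i - ρ * ∑ i, g i * c i := by
      rw [Finset.mul_sum, ← Finset.sum_sub_distrib]
      exact Finset.sum_congr rfl fun i _ => by ring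
    linarith
  -- the compact set of pairs
  set K : Set (ℝ × ℂ) := {p | ρ0 ≤ p.1 ∧ p.2 ∈ D p.1} with hK
  have hKne : K.Nonempty := ⟨(ρ0, 0), le_refl _, hρ0⟩
  have hKcl : IsClosed K := by
    have h1 : IsClosed {p : ℝ × ℂ | ρ0 ≤ p.1} := isClosed_le continuous_const continuous_fst
    have h2 : ∀ i, IsClosed {p : ℝ × ℂ | ip (u i) p.2 ≤ H i - p.1 * g i} := fun i =>
      isClosed_le ((continuous_ip' (u i)).comp continuous_snd) (by fun_prop)
    have h3 : K = {p : ℝ × ℂ | ρ0 ≤ p.1} ∩ ⋂ i, {p : ℝ × ℂ | ip (u i) p.2 ≤ H i - p.1 * g i} := by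
      ext p
      constructor
      · rintro ⟨a, b⟩
        exact ⟨a, Set.mem_iInter.2 fun i => b i⟩
      · rintro ⟨a, b⟩
        exact ⟨a, fun i => Set.mem_iInter.1 b i⟩
    rw [h3]
    exact h1.inter (isClosed_iInter h2)
  have hKb : Bornology.IsBounded K := by
    set M0 : ℝ := ∑ i, (|H i| + (|ρ0| + |ρ1|) * g i) with hM0
    have hterm : ∀ i, 0 ≤ |H i| + (|ρ0| + |ρ1|) * g i := fun i =>
      add_nonneg (abs_nonneg _) (mul_nonneg (add_nonneg (abs_nonneg _) (abs_nonneg _)) (hg i).le)
    have hM0n : 0 ≤ M0 := Finset.sum_nonneg fun i _ => hterm i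
    have hup : ∀ p ∈ K, ∀ i, ip (u i) p.2 ≤ M0 := by
      intro p hp i
      have h1 : ip (u i) p.2 ≤ H i - p.1 * g i := hp.2 i
      have h2 : |p.1| ≤ |ρ0| + |ρ1| := by
        have a1 := hp.1
        have a2 := hub p.1 p.2 hp.2
        rw [abs_le]
        have b1 := neg_abs_le ρ0
        have b2 := le_abs_self ρ1
        have b3 := abs_nonneg ρ0
        have b4 := abs_nonneg ρ1
        constructor <;> linarith
      have h3 : -p.1 * g i ≤ (|ρ0| + |ρ1|) * g i :=
        mul_le_mul_of_nonneg_right ((neg_le_abs _).trans h2) (hg i).le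
      have h4 : |H i| + (|ρ0| + |ρ1|) * g i ≤ M0 :=
        Finset.single_le_sum (f := fun i => |H i| + (|ρ0| + |ρ1|) * g i)
          (fun j _ => hterm j) (Finset.mem_univ i)
      have h5 := le_abs_self (H i)
      linarith
    -- lower bounds
    set C : ℝ := ∑ i, c i with hC
    have hlow : ∀ p ∈ K, ∀ i, -(C * M0 / c i) ≤ ip (u i) p.2 := by
      intro p hp i
      have h1 := hsum p.2
      rw [← Finset.add_sum_erase Finset.univ _ (Finset.mem_univ i)] at h1
      have h2 : ∑ j ∈ Finset.univ.erase i, ip (u j) p.2 * c j ≤ C * M0 := by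
        calc ∑ j ∈ Finset.univ.erase i, ip (u j) p.2 * c j
            ≤ ∑ j ∈ Finset.univ.erase i, M0 * c j :=
              Finset.sum_le_sum fun j _ => mul_le_mul_of_nonneg_right (hup p hp j) (hcpos j).le
          _ ≤ ∑ j, M0 * c j := by
              refine Finset.sum_le_sum_of_subset_of_nonneg (Finset.erase_subset _ _) ?_
              intro j _ _
              exact mul_nonneg hM0n (hcpos j).le
          _ = C * M0 := by rw [← Finset.mul_sum, mul_comm]
      have h3 : -(ip (u i) p.2 * c i) ≤ C * M0 := by linarith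
      have h4 : -ip (u i) p.2 ≤ C * M0 / c i := by
        rw [le_div_iff₀ (hcpos i)]
        linarith
      linarith
    set i1 : Fin n := 0 + 1 with hi1
    set M : ℝ := M0 + C * M0 / c 0 + C * M0 / c i1 with hM
    have hC0 : 0 ≤ C := Finset.sum_nonneg fun i _ => (hcpos i).le
    have q0 : 0 ≤ C * M0 / c 0 := div_nonneg (mul_nonneg hC0 hM0n) (hcpos 0).le
    have q1 : 0 ≤ C * M0 / c i1 := div_nonneg (mul_nonneg hC0 hM0n) (hcpos i1).le
    have hsin : 0 < Real.sin (β 0) := Real.sin_pos_of_pos_of_lt_pi (N.pos 0) (N.lt 0)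
    have hK2 : ∀ p ∈ K, ‖p.2‖ ≤ M + 2 * M / Real.sin (β 0) := by
      intro p hp
      apply norm_le_two (N.unit 0) (N.step 0) hsin
      · rw [abs_le]
        have a1 := hup p hp 0
        have a2 := hlow p hp 0
        constructor <;> linarith
      · rw [abs_le]
        have a1 := hup p hp i1
        have a2 := hlow p hp i1
        constructor <;> linarith
    have hsub : K ⊆ Metric.closedBall (0 : ℝ) (|ρ0| + |ρ1|) ×ˢ
        Metric.closedBall (0 : ℂ) (M + 2 * M / Real.sin (β 0)) := by
      intro p hp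
      refine ⟨?_, ?_⟩
      · rw [Metric.mem_closedBall, dist_zero_right, Real.norm_eq_abs, abs_le]
        have a1 := hp.1
        have a2 := hub p.1 p.2 hp.2
        have b1 := neg_abs_le ρ0
        have b2 := le_abs_self ρ1
        have b3 := abs_nonneg ρ0
        have b4 := abs_nonneg ρ1
        constructor <;> linarith
      · rw [Metric.mem_closedBall, dist_zero_right]
        exact hK2 p hp
    exact (Metric.isBounded_closedBall.prod Metric.isBounded_closedBall).subset hsub
  have hKc : IsCompact K := Metric.isCompact_of_isClosed_isBounded hKcl hKb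
  obtain ⟨p, hpK, hpmax⟩ := hKc.exists_isMaxOn hKne continuous_fst.continuousOn
  obtain ⟨r, x0⟩ := p
  have hr0 : ρ0 ≤ r := hpK.1
  have hx0 : x0 ∈ D r := hpK.2
  have hmax : ∀ ρ x, x ∈ D ρ → ρ ≤ r := by
    intro ρ x hx
    by_cases h : ρ0 ≤ ρ
    · exact hpmax (a := (ρ, x)) ⟨h, hx⟩
    · push Not at h
      exact h.le.trans hr0
  -- the set `D r` has no strict point
  have hstrict : ∀ x ∈ D r, ∃ i, ip (u i) x = H i - r * g i := by
    intro x hx
    by_contra hcon
    push Not at hcon
    have h1 : ∀ i, ip (u i) x < H i - r * g i := fun i => lt_of_le_of_ne (hx i) (hcon i)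
    have h2 : ∀ i, ∀ᶠ ε in 𝓝[>] (0 : ℝ), ip (u i) x < H i - (r + ε) * g i := by
      intro i
      have h3 : Tendsto (fun ε : ℝ => H i - (r + ε) * g i) (𝓝[>] 0) (𝓝 (H i - (r + 0) * g i)) := by
        apply Tendsto.mono_left _ nhdsWithin_le_nhds
        have : Continuous fun ε : ℝ => H i - (r + ε) * g i := by fun_prop
        exact this.tendsto 0
      rw [add_zero] at h3
      exact h3.eventually (lt_mem_nhds (h1 i))
    have h4 : ∀ᶠ ε in 𝓝[>] (0 : ℝ), ∀ i, ip (u i) x < H i - (r + ε) * g i :=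
      eventually_all.2 h2
    obtain ⟨ε, hε, hε0⟩ := (h4.and self_mem_nhdsWithin).exists
    have h5 := hmax (r + ε) x fun i => (hε i).le
    have h6 : (0 : ℝ) < ε := hε0
    linarith
  have hAr : Ar u (fun i => H i - r * g i) = 0 := by
    have h1 : volume (D r) = 0 := by
      have h2 : D r ⊆ ⋃ i, {x : ℂ | ip (u i) x = H i - r * g i} := by
        intro x hx
        obtain ⟨i, hi⟩ := hstrict x hx
        exact Set.mem_iUnion.2 ⟨i, hi⟩
      have h3 : volume (⋃ i, {x : ℂ | ip (u i) x = H i - r * g i}) = 0 :=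
        measure_iUnion_null fun i => Pool.Agent.H62T.H60.volume_line (u i) (N.unit i) _
      exact measure_mono_null h2 h3
    have h4 : Ar u (fun i => H i - r * g i) = (volume (D r)).toReal := rfl
    rw [h4, h1]
    rfl
  have hq : qa β (fun i => H i - r * g i) ≤ 0 := by
    have h1 := (hRun n u β N (fun i => H i - r * g i)).2
    rw [hAr] at h1
    have h2 : 0 ≤ ∫ x, cm (TT u (fun i => H i - r * g i) x) := by
      apply integral_nonneg
      intro x
      apply cm_nonneg hComb hn
      by_contra hemp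
      rw [Set.not_nonempty_iff_eq_empty] at hemp
      have h3 : ∀ i, H i - r * g i < ip (u i) x := by
        intro i
        by_contra h
        push Not at h
        have : i ∈ TT u (fun i => H i - r * g i) x := h
        rw [hemp] at this
        exact this
      have h4 : ∀ i, ip (u i) x0 < ip (u i) x := fun i => lt_of_le_of_lt (hx0 i) (h3 i)
      have h5 : ∑ i, ip (u i) x0 * c i < ∑ i, ip (u i) x * c i := by
        apply Finset.sum_lt_sum_of_nonempty ⟨0, Finset.mem_univ _⟩
        intro i _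
        exact mul_lt_mul_of_pos_right (h4 i) (hcpos i)
      rw [hsum, hsum] at h5
      exact lt_irrefl _ h5
    linarith
  rw [A1 H g r] at hq
  nlinarith [sq_nonneg ((∑ i, len β H i * g i) - 2 * r * qa β g), hG, hq,
    mul_nonneg hG.le (neg_nonneg.2 hq)]

end Pool.Agent.QUD.H41M
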