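import Pool.Agent.QUD.StmtsF

/-!
# Row POG of squad QUD: half-planes are one sided
-/

set_option autoImplicit false

namespace Pool.Agent.QUD.H41

open MeasureTheory Complex Filter Topology ProbabilityTheory Pool.Agent.H16Iso Pool.Agent.H62T
open Pool.Agent.AEU Pool.Agent.QUD

theorem ip_cont (u : ℂ) : Continuous (fun x : ℂ => ip u x) := by
  unfold ip
  exact (continuous_const.mul Complex.continuous_re).add
    (continuous_const.mul Complex.continuous_im)

theorem ip_add_smul (u x y : ℂ) (c : ℝ) : ip u (x + (c : ℂ) * y) = ip u x + c * ip u y := by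
  unfold ip
  simp only [Complex.add_re, Complex.add_im, Complex.mul_re, Complex.mul_im, Complex.ofReal_re,
    Complex.ofReal_im]
  ring

theorem ip_self_pos {u : ℂ} (hu : u ≠ 0) : 0 < ip u u := by
  have h : ip u u = Complex.normSq u := by
    unfold ip
    rw [Complex.normSq_apply]
  rw [h]
  exact Complex.normSq_pos.mpr hu

/-- small parameters -/
theorem small {O : Set ℂ} (hO : IsOpen O) {f : ℝ → ℂ} (hf : Continuous f) (h0 : f 0 ∈ O) :
    ∃ ε : ℝ, 0 < ε ∧ f ε ∈ O := by
  have h1 : IsOpen (f ⁻¹' O) := hO.preimage hf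
  obtain ⟨δ, hδ, h2⟩ := Metric.isOpen_iff.mp h1 0 h0
  refine ⟨δ / 2, by linarith, h2 ?_⟩
  rw [Metric.mem_ball, Real.dist_eq, sub_zero, abs_of_pos (by linarith)]
  linarith

theorem edge (hR : RfbStmt) (e : ℂ) (τ : ℝ) (W : Set ℂ) (u : ℂ) (H : ℝ) (he : ‖e‖ = 1)
    (hW : IsOpen W) (hWs : ∀ x ∈ W, rf e τ x ∈ W) (hu : ip u e < 0)
    (hw : ∃ x ∈ W, ip u x = H) :
    ∃ (a : ℂ) (r : ℝ), 0 < r ∧ ∀ x ∈ Metric.ball a r, x ∈ up e τ ∧ x ∈ W ∧ ip u x < H ∧
      H < ip u (rf e τ x) := by
  obtain ⟨h1, h2, -, -, h5, h6, -, -⟩ := hR e τ he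
  obtain ⟨w, hwW, hwH⟩ := hw
  have hu0 : u ≠ 0 := by
    rintro rfl
    simp [ip] at hu
  have huu := ip_self_pos hu0
  have hee : ip e e = 1 := by
    have h : ip e e = Complex.normSq e := by
      unfold ip
      rw [Complex.normSq_apply]
    rw [h, Complex.normSq_eq_norm_sq, he, one_pow]
  have hup : IsOpen (up e τ) := isOpen_lt continuous_const (ip_cont e)
  have hlow : IsOpen {x : ℂ | ip u x < H} := isOpen_lt (ip_cont u) continuous_const
  have hhigh : IsOpen {x : ℂ | H < ip u (rf e τ x)} :=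
    isOpen_lt continuous_const ((ip_cont u).comp h6)
  have key : ∃ x₀, x₀ ∈ up e τ ∧ x₀ ∈ W ∧ ip u x₀ < H ∧ H < ip u (rf e τ x₀) := by
    rcases lt_trichotomy (ip e w) τ with h | h | h
    · -- `w` is below the line
      have hO : IsOpen (up e τ ∩ W ∩ {x : ℂ | ip u x < H}) := (hup.inter hW).inter hlow
      have hf : Continuous (fun ε : ℝ => rf e τ (w + (ε : ℂ) * u)) :=
        h6.comp (continuous_const.add (Complex.continuous_ofReal.mul continuous_const))
      have h0 : (fun ε : ℝ => rf e τ (w + (ε : ℂ) * u)) 0 ∈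
          up e τ ∩ W ∩ {x : ℂ | ip u x < H} := by
        simp only [Complex.ofReal_zero, zero_mul, add_zero]
        refine ⟨⟨?_, hWs w hwW⟩, ?_⟩
        · show τ < ip e (rf e τ w)
          have := h1 w
          linarith
        · show ip u (rf e τ w) < H
          rw [h5, hwH]
          nlinarith
      obtain ⟨ε, hε, ⟨h3, h4⟩, h7⟩ := small hO hf h0
      refine ⟨_, h3, h4, h7, ?_⟩
      rw [h2, ip_add_smul, hwH]
      nlinarith
    · -- `w` is on the line
      have hf : Continuous (fun ε : ℝ => w + (ε : ℂ) * e) :=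
        continuous_const.add (Complex.continuous_ofReal.mul continuous_const)
      have h0 : (fun ε : ℝ => w + (ε : ℂ) * e) 0 ∈ W := by
        simp only [Complex.ofReal_zero, zero_mul, add_zero]
        exact hwW
      obtain ⟨ε, hε, h3⟩ := small hW hf h0
      have h4 : ip e (w + (ε : ℂ) * e) = τ + ε := by
        rw [ip_add_smul, hee, h, mul_one]
      have h7 : ip u (w + (ε : ℂ) * e) = H + ε * ip u e := by
        rw [ip_add_smul, hwH]
      refine ⟨_, ?_, h3, ?_, ?_⟩
      · show τ < ip e (w + (ε : ℂ) * e)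
        rw [h4]
        linarith
      · show ip u (w + (ε : ℂ) * e) < H
        rw [h7]
        nlinarith
      · show H < ip u (rf e τ (w + (ε : ℂ) * e))
        rw [h5, h7, h4]
        nlinarith
    · -- `w` is above the line
      have hO : IsOpen (up e τ ∩ W ∩ {x : ℂ | H < ip u (rf e τ x)}) := (hup.inter hW).inter hhigh
      have hf : Continuous (fun ε : ℝ => w + ((-ε : ℝ) : ℂ) * u) :=
        continuous_const.add ((Complex.continuous_ofReal.comp continuous_neg).mul continuous_const)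
      have h0 : (fun ε : ℝ => w + ((-ε : ℝ) : ℂ) * u) 0 ∈
          up e τ ∩ W ∩ {x : ℂ | H < ip u (rf e τ x)} := by
        simp only [neg_zero, Complex.ofReal_zero, zero_mul, add_zero]
        refine ⟨⟨h, hwW⟩, ?_⟩
        show H < ip u (rf e τ w)
        rw [h5, hwH]
        nlinarith
      obtain ⟨ε, hε, ⟨h3, h4⟩, h7⟩ := small hO hf h0
      refine ⟨_, h3, h4, ?_, h7⟩
      show ip u (w + ((-ε : ℝ) : ℂ) * u) < H
      rw [ip_add_smul, hwH]
      nlinarith
  obtain ⟨x₀, hx₀⟩ := key
  have hall : IsOpen (up e τ ∩ W ∩ {x : ℂ | ip u x < H} ∩ {x : ℂ | H < ip u (rf e τ x)}) :=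
    ((hup.inter hW).inter hlow).inter hhigh
  obtain ⟨r, hr, hb⟩ := Metric.isOpen_iff.mp hall x₀ ⟨⟨⟨hx₀.1, hx₀.2.1⟩, hx₀.2.2.1⟩, hx₀.2.2.2⟩
  refine ⟨x₀, r, hr, fun x hx => ?_⟩
  obtain ⟨⟨⟨k1, k2⟩, k3⟩, k4⟩ := hb hx
  exact ⟨k1, k2, k3, k4⟩

theorem pog (hR : RfbStmt) : PogStmt := by
  intro e τ W u v H K he hW hWs hu hv hcov hwu hwv
  obtain ⟨h1, h2, -, -, h5, h6, -, -⟩ := hR e τ he
  refine ⟨?_, ?_, ?_⟩
  · intro x hx
    have hx' : τ < ip e x := hx
    have hWi : rf e τ x ∈ W ↔ x ∈ W := by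
      constructor
      · intro h
        have := hWs _ h
        rwa [h2] at this
      · exact hWs x
    have hA : ip u (rf e τ x) < H → ip u x < H := by
      intro h
      rw [h5] at h
      nlinarith
    have hB : ip v (rf e τ x) < K → ip v x < K := by
      intro h
      rw [h5] at h
      nlinarith
    have hc : x ∈ W → ip u (rf e τ x) < H ∨ ip v (rf e τ x) < K := fun h => hcov _ (hWs x h)
    classical
    unfold iD
    simp only [Set.indicator_apply, Set.mem_ofPred_eq, h2, hWi]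
    by_cases k1 : x ∈ W
    · by_cases k2 : ip u (rf e τ x) < H
      · have k3 := hA k2
        by_cases k4 : ip v (rf e τ x) < K
        · have k5 := hB k4
          simp [k1, k2, k3, k4, k5]
        · by_cases k5 : ip v x < K
          · simp [k1, k2, k3, k4, k5]
          · simp [k1, k2, k3, k4, k5]
      · have k4 : ip v (rf e τ x) < K := (hc k1).resolve_left k2
        have k5 := hB k4
        by_cases k3 : ip u x < H
        · simp [k1, k2, k3, k4, k5]
        · simp [k1, k2, k3, k4, k5]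
    · simp [k1]
  · obtain ⟨a, r, hr, hb⟩ := edge hR e τ W u H he hW hWs hu hwu
    refine ⟨a, r, hr, fun x hx => ?_⟩
    obtain ⟨k1, k2, k3, k4⟩ := hb x hx
    have k1' : τ < ip e x := k1
    have k5 : ip v (rf e τ x) < K := by
      rcases hcov _ (hWs x k2) with h | h
      · linarith
      · exact h
    have k6 : ip v x < K := by
      rw [h5] at k5
      nlinarith
    refine ⟨k1, ⟨k2, k3, k6⟩, ?_, ?_⟩
    · rintro ⟨-, h, -⟩
      linarith
    · rintro ⟨-, h, -⟩
      linarith
  · obtain ⟨b, r, hr, hb⟩ := edge hR e τ W v K he hW hWs hv hwv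
    refine ⟨b, r, hr, fun x hx => ?_⟩
    obtain ⟨k1, k2, k3, k4⟩ := hb x hx
    have k1' : τ < ip e x := k1
    have k5 : ip u (rf e τ x) < H := by
      rcases hcov _ (hWs x k2) with h | h
      · exact h
      · linarith
    have k6 : ip u x < H := by
      rw [h5] at k5
      nlinarith
    refine ⟨k1, ⟨k2, k6, k3⟩, ?_, ?_⟩
    · rintro ⟨-, -, h⟩
      linarith
    · rintro ⟨-, -, h⟩
      linarith

end Pool.Agent.QUD.H41
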