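import Pool.Agent.QUD.StmtsX

/-!
Squad QUD, row QSD: a convex quadrilateral in the language of `Cyc`.
-/

set_option autoImplicit false

namespace Pool.Agent.QUD.H41X

open MeasureTheory Complex Filter Topology Pool.Agent.H16Iso Pool.Agent.H62T
open Pool.Agent.AEU Pool.Agent.XQ Pool.Agent.QUD
open Pool.Agent.H1Gen (det CCW poly)
open Pool.Agent.H62T.H85 (nrm off)
open Pool.Agent.H16F.H69 (bt)

theorem dt_pos {n : ℕ} [NeZero n] (hn : 3 ≤ n) {v : Fin n → ℂ} (hv : H62T.H85.CC v)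
    (i : Fin n) : 0 < dt (nrm v i) (nrm v (i + 1)) := by
  have h1 := H16F.H69.im_quot hn hv i
  have h3 : (nrm v (i + 1) / nrm v i).im = dt (nrm v i) (nrm v (i + 1)) := by
    have h4 : normSq (nrm v i) = 1 := by
      rw [normSq_eq_norm_sq, H62T.H85.norm_nrm hn hv]; norm_num
    rw [div_im, h4]
    simp only [dt]; ring
  rw [h3] at h1
  exact h1

theorem dt_anti (a b : ℂ) : dt a b = -dt b a := by
  simp only [dt]; ring

/-- a vertex with its two sides in the positive order -/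
theorem vertex_of {n : ℕ} [NeZero n] (hIdx : IdxStmt) (hn : 3 ≤ n) {v : Fin n → ℂ}
    (hv : CCW v) {a b : HP} {z : ℂ} (h : VxOf (sds v) a b z) (hd : 0 < dt a.1 b.1) :
    ∃ i : Fin n, z = v (i + 1) ∧ a = sd v i ∧ b = sd v (i + 1) := by
  obtain ⟨i, hz, h1 | h1⟩ := (hIdx n v hn hv).2.2 a b z h
  · exact ⟨i, hz, h1.1, h1.2⟩
  · exfalso
    have h2 := dt_pos hn (v := v) hv i
    rw [h1.1, h1.2, dt_anti] at hd
    have h3 : (sd v i).1 = nrm v i := rfl
    have h4 : (sd v (i + 1)).1 = nrm v (i + 1) := rfl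
    rw [h3, h4] at hd
    linarith

theorem sd_inj {n : ℕ} [NeZero n] (hn : 3 ≤ n) {v : Fin n → ℂ} (hv : CCW v) {i j : Fin n}
    (h : sd v i = sd v j) : i = j :=
  H62T.H85.side_inj hn (v := v) hv h

theorem opn_sds {n : ℕ} [NeZero n] (hn : 3 ≤ n) {v : Fin n → ℂ} (hv : CCW v) :
    opn (sds v) = poly v := by
  have h1 : poly v = H62T.Poly (nrm v) (off v) := H62T.H85.poly_eq hn (v := v) hv
  rw [h1]
  ext x
  have h2 : x ∈ opn (sds v) ↔ ∀ s ∈ sds v, ip s.1 x < s.2 := Iff.rfl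
  have h3 : x ∈ H62T.Poly (nrm v) (off v) ↔ ∀ i, ip (nrm v i) x < off v i := Iff.rfl
  rw [h2, h3]
  simp only [sds, sides, Finset.mem_image, Finset.mem_univ,
    true_and, forall_exists_index, forall_apply_eq_imp_iff]

theorem sds_four (v : Fin 4 → ℂ) : sds v = {sd v 0, sd v 1, sd v 2, sd v 3} := by
  ext s
  simp only [sds, sides, Finset.mem_image, Finset.mem_univ, true_and, Finset.mem_insert,
    Finset.mem_singleton]
  constructor
  · rintro ⟨i, rfl⟩
    fin_cases i
    · left; rfl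
    · right; left; rfl
    · right; right; left; rfl
    · right; right; right; rfl
  · rintro (h | h | h | h)
    · exact ⟨0, h.symm⟩
    · exact ⟨1, h.symm⟩
    · exact ⟨2, h.symm⟩
    · exact ⟨3, h.symm⟩

theorem qsd (hIdx : IdxStmt) (hVxx : VxxStatement) : QsdStmt := by
  intro v hv
  have hn : 3 ≤ 4 := by norm_num
  have hpg := (hIdx 4 v hn hv).1
  have hvx := (hIdx 4 v hn hv).2.1
  have e01 : (0 : Fin 4) + 1 = 1 := by decide
  have e12 : (1 : Fin 4) + 1 = 2 := by decide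
  have e23 : (2 : Fin 4) + 1 = 3 := by decide
  have e30 : (3 : Fin 4) + 1 = 0 := by decide
  have hne : ∀ i j : Fin 4, i ≠ j → sd v i ≠ sd v j := fun i j hij h => hij (sd_inj hn hv h)
  have key : ∀ i : Fin 4, 0 < dt (sd v i).1 (sd v (i + 1)).1 ∧
      VxOf (sds v) (sd v i) (sd v (i + 1)) (vx (sd v i) (sd v (i + 1))) := by
    intro i
    refine ⟨dt_pos hn (v := v) hv i, ?_⟩
    have h1 := hvx i
    have h2 := ((hVxx _ hpg).2.2.2.2.1 _ _ _ h1).1
    rw [← h2]
    exact h1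
  refine ⟨⟨opn_sds hn hv, sds_four v, ?_⟩, ?_⟩
  · have k0 := key 0
    have k1 := key 1
    have k2 := key 2
    have k3 := key 3
    rw [e01] at k0
    rw [e12] at k1
    rw [e23] at k2
    rw [e30] at k3
    have hpg' := hpg
    rw [sds_four v] at k0 k1 k2 k3 hpg'
    exact
      { ne := ⟨hne 0 1 (by decide), hne 0 2 (by decide), hne 0 3 (by decide),
          hne 1 2 (by decide), hne 1 3 (by decide), hne 2 3 (by decide)⟩
        pg := hpg'
        ab := k0.1
        bc := k1.1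
        cd := k2.1
        da := k3.1
        vab := k0.2
        vbc := k1.2
        vcd := k2.2
        vda := k3.2 }
  · intro a b c d hs hc
    have f1 : ∀ i : Fin 4, i + 1 + 1 = i + 2 := by decide
    have f2 : ∀ i : Fin 4, i + 2 + 1 = i + 3 := by decide
    have f3 : ∀ i : Fin 4, i + 3 + 1 = i := by decide
    have vab := hc.vab
    have vbc := hc.vbc
    have vcd := hc.vcd
    have vda := hc.vda
    rw [← hs] at vab vbc vcd vda
    obtain ⟨i, hz, ha, hb⟩ := vertex_of hIdx hn hv vab hc.ab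
    obtain ⟨j, hz2, hb2, hc2⟩ := vertex_of hIdx hn hv vbc hc.bc
    obtain ⟨k, hz3, hc3, hd3⟩ := vertex_of hIdx hn hv vcd hc.cd
    obtain ⟨l, hz4, hd4, ha4⟩ := vertex_of hIdx hn hv vda hc.da
    have hj : j = i + 1 := sd_inj hn hv (hb2.symm.trans hb)
    subst hj
    rw [f1] at hc2 hz2
    have hk : k = i + 2 := sd_inj hn hv (hc3.symm.trans hc2)
    subst hk
    rw [f2] at hd3 hz3
    have hl : l = i + 3 := sd_inj hn hv (hd4.symm.trans hd3)
    subst hl
    rw [f3] at hz4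
    exact ⟨i, ha, hb, hc2, hd3, hz, hz2, hz3, hz4⟩

end Pool.Agent.QUD.H41X
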