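import Pool.Agent.QUD.StmtsRB

/-!
# Row RW1 of squad QUD: a common dying side
-/

set_option autoImplicit false

namespace Pool.Agent.QUD.H41

open MeasureTheory Complex Filter Topology Pool.Agent.H16Iso Pool.Agent.H62T
open Pool.Agent.AEU Pool.Agent.XQ Pool.Agent.QUD
open Pool.Agent.H1Gen (det CCW poly)

theorem sn_pos {t : ℝ} (h0 : 0 < t) : 0 < sn t := by
  unfold sn
  split_ifs with h
  · exact Real.sin_pos_of_pos_of_lt_pi h0 (by linarith [Real.pi_pos])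
  · exact one_pos

theorem cos_inj {s t : ℝ} (hs : 0 < s) (hs' : s < Real.pi) (ht : 0 < t) (ht' : t < Real.pi)
    (h : Real.cos s = Real.cos t) : s = t :=
  Real.injOn_cos ⟨hs.le, hs'.le⟩ ⟨ht.le, ht'.le⟩ h

theorem die_data (hV : VtxStmt) (hA : AngStmt) {a b c d : HP} {L x y : ℝ} (hc : Cyc a b c d)
    (hd : Die a b c L x y) :
    CCW (vv a b c d) ∧ opn {a, b, c, d} = poly (vv a b c d) ∧ an (vv a b c d) 1 = x ∧
      an (vv a b c d) 2 = y ∧ L / 2 = en (vv a b c d) 1 * (sn x * sn y) := by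
  obtain ⟨cw, ho, -, -, -, -, -, c1, c2, -⟩ := hV a b c d hc
  obtain ⟨p1, q1, -⟩ := hA _ cw 1
  obtain ⟨p2, q2, -⟩ := hA _ cw 2
  refine ⟨cw, ho, ?_, ?_, ?_⟩
  · refine cos_inj p1 q1 hd.x0 hd.x1 ?_
    rw [c1, hd.cx, neg_neg]
  · refine cos_inj p2 q2 hd.y0 hd.y1 ?_
    rw [c2, hd.cy, neg_neg]
  · have h1 : en (vv a b c d) 1 = ‖vx a b - vx b c‖ := by
      rw [norm_sub_rev]
      rfl
    rw [h1, hd.len, mul_assoc]

theorem rw1 (_hC : CgrStmt) (hO : OneStmt) (hV : VtxStmt) (hA : AngStmt) (hF : FxcStmt) :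
    Rw1Stmt := by
  intro hDC a b c d a' b' c' d' L x y x' y' hc hc' har hpm hdir hd hd' hxy
  obtain ⟨cw, ho, e1, e2, e3⟩ := die_data hV hA hc hd
  obtain ⟨cw', ho', e1', e2', e3'⟩ := die_data hV hA hc' hd'
  have hsn : sn x * sn y = sn x' * sn y' := by
    rcases hxy with ⟨h1, h2⟩ | ⟨h1, h2⟩
    · rw [h1, h2]
    · rw [h1, h2, mul_comm]
  have hpos : 0 < sn x' * sn y' := mul_pos (sn_pos hd'.x0) (sn_pos hd'.y0)
  have hen : en (vv a b c d) 1 = en (vv a' b' c' d') 1 := by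
    rw [hsn] at e3
    exact mul_right_cancel₀ hpos.ne' (e3.symm.trans e3')
  have h12 : ((1 : Fin 4) + 1) = 2 := rfl
  rw [ho, ho'] at hdir ⊢
  have h := hO (vv a b c d) (vv a' b' c' d') 1 1 cw cw' har hpm hen
    (by rw [h12, e1, e2]; exact hd.sum)
    (by
      rw [h12, e1, e2, e1', e2']
      rcases hxy with h | h
      · exact Or.inl h
      · exact Or.inr h)
  rcases h with h | h
  · exact h
  · exact hF hDC _ _ (Or.inl h) hdir

end Pool.Agent.QUD.H41
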